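import Pool.Agent.Lib.TWC.EW
import Pool.Agent.Lib.TWCT.NoTie
import Pool.Agent.Lib.TWS7.Unhit

/-!
# TANK W, contact (III.1), dimension 4: the floors are fixed (text `N^tau`, section 2)

* `tl_of_fix`: if isometric embeddings fix `B` and move `w` by amounts of values `< s` arbitrarily
  near `s`, then `w`, a limit of `B` up to `s`, is of transcendental type over `B`;
* `rot`: `K = N(w, u, z)` is the closure of `B(w)`, `B` the closure of `N(u, z)`.
-/

set_option autoImplicit false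

open Polynomial

namespace Pool.Agent.TWNT

open Pool.Agent.H15JM (RVal)
open Pool.Agent.LU1 (VPos adj)
open Pool.Agent.TWC (self_le_clI)
open Pool.Agent.LUC (Cl)
open Pool.Agent.D2 (Ctx0)
open Pool.Agent.D2P (hen clI mem_clI mem_adj_self)
open Pool.Agent.TWM
open Pool.Agent.TWS
open Pool.Agent.TWS7 (FGc)
open Pool.Agent.TW (Full)

universe u

variable {k Ω : Type u} [Field k] [Field Ω] [Algebra k Ω] {v : RVal Ω}
  {N B : IntermediateField k Ω} {w : Ω} {s : ℝ}

/-- Finitely many values `< s` are bounded away from `s`. -/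
theorem exists_gap (S : Finset Ω) (s : ℝ) :
    ∃ ε : ℝ, 0 < ε ∧ ∀ x ∈ S, x ≠ 0 → v x < s → v x < s - ε := by
  classical
  induction S using Finset.induction_on with
  | empty => exact ⟨1, one_pos, fun x hx => absurd hx (Finset.notMem_empty _)⟩
  | insert a S _ ih =>
    obtain ⟨ε, hε, h1⟩ := ih
    by_cases ha : v a < s
    · refine ⟨min ε ((s - v a) / 2), lt_min hε (by linarith), fun x hx hx0 hxs => ?_⟩
      rcases Finset.mem_insert.1 hx with rfl | hx
      · have := min_le_right ε ((s - v x) / 2)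
        linarith
      · have := min_le_left ε ((s - v a) / 2)
        linarith [h1 x hx hx0 hxs]
    · refine ⟨ε, hε, fun x hx hx0 hxs => ?_⟩
      rcases Finset.mem_insert.1 hx with rfl | hx
      · exact absurd hxs ha
      · exact h1 x hx hx0 hxs

/-- An isometric embedding which fixes `A` and `z` fixes the closure of `A(z)`. -/
theorem fix_cadj {Φ : Ω →ₐ[k] Ω} (hΦ : IsoE v v Φ) {A : IntermediateField k Ω} {z : Ω}
    (h : ∀ a ∈ A, Φ a = a) (hz : Φ z = z) : ∀ a ∈ cadj v A z, Φ a = a := by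
  refine TWCT.fix_clI hΦ fun a ha => ?_
  obtain ⟨f, hf, g, hg, hg0, h1⟩ := TWC.exists_frac ha
  have key : ∀ f ∈ PI A, Φ (f.eval z) = f.eval z := by
    intro f hf
    rw [eval_eq_sum_range, map_sum]
    refine Finset.sum_congr rfl fun i _ => ?_
    rw [map_mul, map_pow, hz, h _ (hf i)]
  have h2 : a = f.eval z / g.eval z := by rw [← h1, mul_div_assoc, div_self hg0, mul_one]
  rw [h2, map_div₀, key f hf, key g hg]

/-- **Fixed fields are far.** -/
theorem tl_of_fix (hl : Lim v B s w)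
    (hΦ : ∀ ε : ℝ, 0 < ε → ∃ Φ : Ω →ₐ[k] Ω, IsoE v v Φ ∧ (∀ b ∈ B, Φ b = b) ∧
      ¬ v.Ge s (Φ w - w) ∧ v.Ge (s - ε) (Φ w - w)) : TL v B w s where
  lim := hl
  far := by
    classical
    intro θ hθ
    by_contra hcon
    have hge : v.Ge s (w - θ) := by
      intro h0
      by_contra h1
      exact hcon ⟨fun h => h0 (by rw [h, sub_self]), not_le.1 h1⟩
    obtain ⟨P, hP0, hP⟩ := hθ
    set S : Finset Ω := ((P.map (algebraMap B Ω)).roots.toFinset).image fun t => t - θ with hS
    obtain ⟨ε, hε, h1⟩ := exists_gap (v := v) S s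
    obtain ⟨Φ, hi, hfix, hns, hs⟩ := hΦ ε hε
    have hroot : Φ θ ∈ (P.map (algebraMap B Ω)).roots.toFinset := by
      rw [Multiset.mem_toFinset, mem_roots', IsRoot.def]
      refine ⟨(Polynomial.map_ne_zero_iff (algebraMap B Ω).injective).2 hP0, ?_⟩
      have e1 : Φ (aeval θ P) = (P.map (algebraMap B Ω)).eval (Φ θ) := by
        rw [aeval_def, eval₂_eq_sum_range, eval_eq_sum_range, map_sum,
          natDegree_map_eq_of_injective (algebraMap B Ω).injective]
        refine Finset.sum_congr rfl fun i _ => ?_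
        rw [map_mul, map_pow, coeff_map]
        congr 1
        exact hfix _ (P.coeff i).2
      rw [← e1, hP, map_zero]
    have hmem : Φ θ - θ ∈ S := Finset.mem_image.2 ⟨_, hroot, rfl⟩
    have e2 : Φ θ - θ = (Φ w - w) - (Φ (w - θ) - (w - θ)) := by
      rw [map_sub]
      ring
    have h2 : v.Ge s (Φ (w - θ) - (w - θ)) := (hi.ge_iff.2 hge).sub hge
    have h3 : ¬ v.Ge s (Φ θ - θ) := by
      intro h4
      refine hns ?_
      have h5 := h4.add h2
      rwa [e2, sub_add_cancel] at h5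
    have h4 : v.Ge (s - ε) (Φ θ - θ) := by
      rw [e2]
      exact hs.sub (h2.mono (by linarith))
    have h0 : Φ θ - θ ≠ 0 := fun h => h3 (by rw [h]; exact RVal.Ge.zero)
    have h5 : v (Φ θ - θ) < s := by
      by_contra h6
      exact h3 fun _ => not_lt.1 h6
    have := h1 _ hmem h0 h5
    have := h4 h0
    linarith

/-! ### The rotation -/

/-- The closure of a finitely generated field, a transcendental element added. -/
theorem fgc_cadj {d : ℕ} {C : IntermediateField k Ω} (h : FGc v d C) {z : Ω}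
    (hz : Transcendental C z) : FGc v (d + 1) (cadj v C z) := by
  obtain ⟨F, hF, hFf, hFt, rfl⟩ := h
  refine ⟨adj F z, D2P.fg_adj hF z, hFf.mono (mem_adj_self F z).2, ?_, clI_adj_clI⟩
  rw [TW.HRLU.trdeg_adj (fun h1 => hz (D2P.isAlgebraic_mono (self_le_clI v F) h1)), hFt]
  push_cast
  rfl

section Rot

variable {C F K : IntermediateField k Ω} {u z : Ω} {ρ r : ℝ}

/-- `K = N(w, u, z)` is the closure of `B(w)`, `B` the closure of `N(u, z)`. -/
theorem rot (v : RVal Ω) (N : IntermediateField k Ω) (w u z : Ω) :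
    cadj v (cadj v (cadj v N w) u) z = cadj v (cadj v (cadj v N u) z) w := by
  rw [cadj_comm v N w u, cadj_comm v (cadj v N u) w z]

/-- The closure of `N(u, z)`. -/
theorem fgc_rot {d : ℕ} (hN : FGc v d N) (hu : TL v (cadj v N w) u ρ)
    (hz : TL v (cadj v (cadj v N w) u) z r) : FGc v (d + 1 + 1) (cadj v (cadj v N u) z) := by
  refine fgc_cadj (fgc_cadj hN fun h1 => ?_) fun h1 => ?_
  · exact TWJ.TL.transc hu (D2P.isAlgebraic_mono (le_cadj v N w) h1)
  · refine TWJ.TL.transc hz (D2P.isAlgebraic_mono ?_ h1)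
    exact cadj_mono (le_cadj v N w) u

/-- **The floors `u`, `z` are fixed by motions of `w`: `w` is a floor over `N(u, z)`.** -/
theorem tl_rot (hw : Lim v N s w)
    (hΦ : ∀ ε : ℝ, 0 < ε → ∃ Φ : Ω →ₐ[k] Ω, IsoE v v Φ ∧ (∀ b ∈ N, Φ b = b) ∧ Φ u = u ∧
      Φ z = z ∧ ¬ v.Ge s (Φ w - w) ∧ v.Ge (s - ε) (Φ w - w)) :
    TL v (cadj v (cadj v N u) z) w s := by
  refine tl_of_fix ?_ fun ε hε => ?_
  · intro ε hε
    obtain ⟨a, ha, h1⟩ := hw ε hε
    exact ⟨a, le_cadj v _ z (le_cadj v _ u ha), h1⟩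
  · obtain ⟨Φ, hi, h1, h2, h3, h4, h5⟩ := hΦ ε hε
    exact ⟨Φ, hi, fix_cadj hi (fix_cadj hi h1 h2) h3, h4, h5⟩

end Rot

end Pool.Agent.TWNT
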